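import Pool.Agent.Q100.FMain

/-!
# MP_93c18e: octahedrality of free Banach lattices over `L₁`-preduals with the Daugavet property

For every real Banach space `E ≠ 0` which is an `L₁`-predual and has the Daugavet property, the
norm of the free Banach lattice `FBL[E]` is octahedral.
-/

set_option autoImplicit false

namespace Pool.Agent.Results.MP_93c18e_an.Octahedral

open Q100.FB

universe u v

theorem result (E : Type u) [NormedAddCommGroup E] [NormedSpace ℝ E] [CompleteSpace E]
    [Nontrivial E] (hE : IsL1Predual.{u, v} E) (hD : Daugavet E) : OctahedralFBL E :=
  main hE hD

end Pool.Agent.Results.MP_93c18e_an.Octahedral
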